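import Mathlib
import Pool.Agent.H.MP_aa1485_co.A

namespace Pool.Agent.Results.MP_aa1485_co.Forest

/-- One skew force: B is the blue set, u has exactly one white neighbour w, which turns blue. -/
def Step {V : Type} (G : SimpleGraph V) (B B' : Set V) : Prop :=
  ∃ u w, G.Adj u w ∧ w ∉ B ∧ (∀ w', G.Adj u w' → w' ∉ B → w' = w) ∧ B' = insert w B

def Forcing {V : Type} (G : SimpleGraph V) (S : Set V) : Prop :=
  Relation.ReflTransGen (Step G) S Set.univ

def Fort {V : Type} (G : SimpleGraph V) (F : Set V) : Prop :=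
  F.Nonempty ∧ ∀ v, (G.neighborSet v ∩ F).ncard ≠ 1

def Ir {V : Type} (G : SimpleGraph V) (S : Set V) : Prop :=
  ∀ u ∈ S, ∃ F, Fort G F ∧ F ∩ S = {u}

noncomputable def Z {V : Type} (G : SimpleGraph V) : ℕ :=
  sInf {k | ∃ S, Forcing G S ∧ S.ncard = k}

noncomputable def Zbar {V : Type} (G : SimpleGraph V) : ℕ :=
  sSup {k | ∃ S, Minimal (Forcing G) S ∧ S.ncard = k}

noncomputable def zir {V : Type} (G : SimpleGraph V) : ℕ :=
  sInf {k | ∃ S, Maximal (Ir G) S ∧ S.ncard = k}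

noncomputable def ZIR {V : Type} (G : SimpleGraph V) : ℕ :=
  sSup {k | ∃ S, Maximal (Ir G) S ∧ S.ncard = k}

open Pool.Agent.H.MP_aa1485_co in
theorem result (V : Type) [Fintype V] (T : SimpleGraph V) (hT : T.IsAcyclic) :
    zir T = Z T ∧ Z T = Zbar T ∧ Zbar T = ZIR T := by
  classical
  have fort : ∀ F, Fort T F ↔ F.Nonempty ∧ ∀ v, ¬ ∃! w, T.Adj v w ∧ w ∈ F := by
    intro F
    refine and_congr Iff.rfl (forall_congr' fun v => not_congr ?_)
    rw [Set.ncard_eq_one]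
    constructor
    · rintro ⟨a, ha⟩
      refine ⟨a, (ha ▸ Set.mem_singleton a : a ∈ T.neighborSet v ∩ F), fun w hw => ?_⟩
      exact (ha ▸ hw : w ∈ ({a} : Set V))
    · rintro ⟨a, ha, hu⟩
      exact ⟨a, Set.eq_singleton_iff_unique_mem.2 ⟨ha, hu⟩⟩
  have f1 : ∀ S, Forcing T S → ∀ F, Fort T F → (F ∩ S).Nonempty := by
    intro S hS F hF
    rw [fort] at hF
    induction hS using Relation.ReflTransGen.head_induction_on with
    | refl => simpa using hF.1
    | @head a c h _ ih =>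
      obtain ⟨u, w, h1, -, h3, rfl⟩ := h
      by_contra hn
      obtain ⟨y, hy, hy'⟩ := ih
      have hw : w ∈ F := by
        rcases hy' with rfl | h
        · exact hy
        · exact absurd ⟨y, hy, h⟩ hn
      exact hF.2 u ⟨w, ⟨h1, hw⟩, fun w' hw' => h3 w' hw'.1 fun h => hn ⟨w', hw'.2, h⟩⟩
  have f2 : ∀ S, (∀ F, Fort T F → (F ∩ S).Nonempty) → Forcing T S := by
    intro S
    induction S using WellFoundedGT.induction with
    | _ S ih =>
    intro h
    by_cases hS : S = Set.univ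
    · subst hS; exact Relation.ReflTransGen.refl
    have hn : ¬ Fort T Sᶜ := fun hF => by simpa using h _ hF
    rw [fort, not_and] at hn
    have := hn (Set.nonempty_compl.2 hS)
    push Not at this
    obtain ⟨u, w, ⟨h1, h2⟩, h3⟩ := this
    refine Relation.ReflTransGen.head ⟨u, w, h1, h2, fun w' a b => h3 w' ⟨a, b⟩, rfl⟩
      (ih _ (Set.ssubset_insert h2) fun F hF => ?_)
    exact (h F hF).mono (Set.inter_subset_inter_right _ (Set.subset_insert _ _))
  have sf : ∀ x ∈ K T, x ≠ 0 → Fort T {v | x v ≠ 0} := fun x hx h0 =>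
    (fort _).2 ⟨Function.ne_iff.1 h0, fun v => fort_of_mem T x hx v⟩
  have ir : ∀ S, Ir T S ↔ ∀ u ∈ S, ∃ x ∈ K T, x u ≠ 0 ∧ ∀ s ∈ S, s ≠ u → x s = 0 := by
    intro S
    refine forall₂_congr fun u hu => ⟨?_, ?_⟩
    · rintro ⟨F, hF, e⟩
      obtain ⟨x, hx, h⟩ := mem_of_fort T hT F ((fort F).1 hF).2
      refine ⟨x, hx, (h u).2 (e ▸ Set.mem_singleton u : u ∈ F ∩ S).1, fun s hs hsu => ?_⟩
      by_contra h0
      exact hsu (e ▸ (⟨(h s).1 h0, hs⟩ : s ∈ F ∩ S) : s ∈ ({u} : Set V))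
    · rintro ⟨x, hx, h1, h2⟩
      refine ⟨_, sf x hx fun h => h1 (by simp [h]),
        Set.eq_singleton_iff_unique_mem.2 ⟨⟨h1, hu⟩, fun s hs => ?_⟩⟩
      by_contra h
      exact hs.1 (h2 s hs.2 h)
  have a : ∀ S, Ir T S → S.ncard ≤ Module.finrank ℚ (K T) := fun S h =>
    le_of_surj _ S ((ir S).1 h)
  have b : ∀ S, Forcing T S → Module.finrank ℚ (K T) ≤ S.ncard := by
    intro S h
    refine le_of_inj _ S fun x hx h0 => ?_
    by_contra hn
    obtain ⟨y, h1, h2⟩ := f1 S h _ (sf x hx hn)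
    exact h1 (h0 y h2)
  have c : ∀ S, Maximal (Ir T) S → S.ncard = Module.finrank ℚ (K T) := by
    intro S h
    refine le_antisymm (a S h.1) (le_of_inj _ S fun x hx h0 => ?_)
    by_contra hn
    obtain ⟨v, hv⟩ := Function.ne_iff.1 hn
    have hv' : x v ≠ 0 := hv
    have hvS : v ∉ S := fun h => hv' (h0 v h)
    have : Ir T (insert v S) := by
      rw [ir]
      rintro u (rfl | hu)
      · refine ⟨x, hx, hv', ?_⟩
        rintro s (rfl | hs) h
        · exact absurd rfl h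
        · exact h0 s hs
      · obtain ⟨y, hy, h1, h2⟩ := (ir S).1 h.1 u hu
        refine ⟨y - (y v / x v) • x, (K T).sub_mem hy ((K T).smul_mem _ hx),
          by simpa [h0 u hu] using h1, ?_⟩
        rintro s (rfl | hs) h
        · simp [hv']
        · simp [h0 s hs, h2 s hs h]
    exact hvS (h.2 this (Set.subset_insert _ _) (Set.mem_insert _ _))
  have d : ∀ S, Minimal (Forcing T) S → S.ncard = Module.finrank ℚ (K T) := by
    intro S h
    refine le_antisymm (a S fun u hu => ?_) (b S h.1)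
    have hn : ¬ Forcing T (S \ {u}) := fun h' => (h.2 h' Set.sdiff_subset hu).2 rfl
    by_contra hc
    refine hn (f2 _ fun F hF => ?_)
    by_contra he
    have h1 : ∀ y ∈ F ∩ S, y = u := fun y hy => by
      by_contra hne
      exact he ⟨y, hy.1, hy.2, hne⟩
    obtain ⟨y, hy⟩ := f1 S h.1 F hF
    exact hc ⟨F, hF, Set.eq_singleton_iff_unique_mem.2 ⟨h1 y hy ▸ hy, h1⟩⟩
  obtain ⟨S1, -, hS1⟩ := Finite.exists_le_maximal (p := Ir T) (a := ∅) fun u hu => hu.elim
  obtain ⟨S2, -, hS2⟩ := Finite.exists_le_minimal (p := Forcing T) (a := Set.univ)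
    Relation.ReflTransGen.refl
  have e1 : {k | ∃ S, Maximal (Ir T) S ∧ S.ncard = k} = {Module.finrank ℚ (K T)} :=
    Set.eq_singleton_iff_unique_mem.2 ⟨⟨S1, hS1, c _ hS1⟩, fun k ⟨S, h, e⟩ => e ▸ c S h⟩
  have e2 : {k | ∃ S, Minimal (Forcing T) S ∧ S.ncard = k} = {Module.finrank ℚ (K T)} :=
    Set.eq_singleton_iff_unique_mem.2 ⟨⟨S2, hS2, d _ hS2⟩, fun k ⟨S, h, e⟩ => e ▸ d S h⟩
  have e3 : Z T = Module.finrank ℚ (K T) := by
    refine le_antisymm (Nat.sInf_le ⟨S2, hS2.1, d _ hS2⟩) (le_csInf ⟨_, S2, hS2.1, rfl⟩ ?_)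
    rintro k ⟨S, h, rfl⟩
    exact b S h
  simp only [zir, Zbar, ZIR, e1, e2, e3, csInf_singleton, csSup_singleton, and_self]

end Pool.Agent.Results.MP_aa1485_co.Forest
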